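import Pool.Agent.Helper10.AB.GoalsF4

/-! # Project AB, module FM: packet COL (integration over the fibre) -/

open MeasureTheory Set Filter Topology
open scoped ContDiff ENNReal

noncomputable section

namespace Pool.Agent.Helper68.AB

open Pool.Agent.Helper24.AB Pool.Agent.Helper10.AB

lemma isOpen_Bs (a x : ℝ) : IsOpen (Bs a x) := by
  have : Bs a x = {ζ : Fin 3 → ℝ | ζ 0 ^ 2 + ζ 1 ^ 2 + ζ 2 ^ 2 < a ^ 2 - x ^ 2} := rfl
  rw [this]
  exact isOpen_lt (by fun_prop) (by fun_prop)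

lemma isOpen_YSu (a : ℝ) : IsOpen {y : YY | y.2 ∈ Bs a y.1.re} := by
  have : {y : YY | y.2 ∈ Bs a y.1.re} =
      {y : YY | y.2 0 ^ 2 + y.2 1 ^ 2 + y.2 2 ^ 2 < a ^ 2 - y.1.re ^ 2} := rfl
  rw [this]
  exact isOpen_lt (by fun_prop) (by fun_prop)

lemma measurableSet_YS (a : ℝ) {S : Set ℂ} (hS : MeasurableSet S) : MeasurableSet (YS a S) :=
  (measurable_fst hS).inter (isOpen_YSu a).measurableSet

lemma indicator_YS {E : Type*} [Zero E] (a : ℝ) (S : Set ℂ) (φ : YY → E) (w : ℂ)
    (ζ : Fin 3 → ℝ) :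
    (YS a S).indicator φ (w, ζ) =
      S.indicator (fun w => (Bs a w.re).indicator (fun ζ => φ (w, ζ)) ζ) w := by
  classical
  by_cases hw : w ∈ S
  · by_cases hζ : ζ ∈ Bs a w.re
    · rw [indicator_of_mem (show ((w, ζ) : YY) ∈ YS a S from ⟨hw, hζ⟩), indicator_of_mem hw,
        indicator_of_mem hζ]
    · rw [indicator_of_notMem (fun h : ((w, ζ) : YY) ∈ YS a S => hζ h.2), indicator_of_mem hw,
        indicator_of_notMem hζ]
  · rw [indicator_of_notMem (fun h : ((w, ζ) : YY) ∈ YS a S => hw h.1), indicator_of_notMem hw]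

/-- Tonelli for `muY`. -/
lemma lint_muY (a A : ℝ) (s : ℝ → ℝ) (hk : Continuous (kJ a A s)) {S : Set ℂ}
    (hS : MeasurableSet S) {f : YY → ℝ≥0∞} (hf : AEMeasurable f (volume.restrict (YS a S))) :
    ∫⁻ y, f y ∂(muY a A s S) =
      ∫⁻ w in S, ∫⁻ ζ in Bs a w.re, ENNReal.ofReal (kJ a A s w.re) * f (w, ζ) := by
  unfold muY
  have hd : Measurable fun y : YY => ENNReal.ofReal (kJ a A s y.1.re) :=
    (hk.comp (Complex.continuous_re.comp continuous_fst)).measurable.ennreal_ofReal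
  rw [lintegral_withDensity_eq_lintegral_mul₀ hd.aemeasurable hf,
    ← lintegral_indicator (measurableSet_YS a hS), Measure.volume_eq_prod, lintegral_prod]
  · rw [← lintegral_indicator hS]
    congr 1
    funext w
    by_cases hw : w ∈ S
    · rw [indicator_of_mem hw, ← lintegral_indicator (isOpen_Bs a w.re).measurableSet]
      congr 1
      funext ζ
      rw [indicator_YS, indicator_of_mem hw]
      rfl
    · rw [indicator_of_notMem hw]
      have : ∀ ζ : Fin 3 → ℝ, (YS a S).indicator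
          ((fun y : YY => ENNReal.ofReal (kJ a A s y.1.re)) * f) (w, ζ) = 0 := by
        intro ζ
        rw [indicator_YS, indicator_of_notMem hw]
      simp only [this, lintegral_zero]
  · rw [← Measure.volume_eq_prod, aemeasurable_indicator_iff (measurableSet_YS a hS)]
    exact hd.aemeasurable.mul hf

/-- Fubini for `muY`. -/
lemma int_muY (a A : ℝ) (s : ℝ → ℝ) (hk : Continuous (kJ a A s)) (hk0 : ∀ x, 0 < kJ a A s x)
    {S : Set ℂ} (hS : MeasurableSet S) {f : YY → ℂ} (hf : Integrable f (muY a A s S)) :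
    ∫ y, f y ∂(muY a A s S) =
      ∫ w in S, ∫ ζ in Bs a w.re, (kJ a A s w.re : ℂ) * f (w, ζ) := by
  have hd : Measurable fun y : YY => ENNReal.ofReal (kJ a A s y.1.re) :=
    (hk.comp (Complex.continuous_re.comp continuous_fst)).measurable.ennreal_ofReal
  have hlt : ∀ᵐ y : YY ∂(volume.restrict (YS a S)), ENNReal.ofReal (kJ a A s y.1.re) < ⊤ :=
    Eventually.of_forall fun y => ENNReal.ofReal_lt_top
  unfold muY at hf ⊢
  rw [integral_withDensity_eq_integral_toReal_smul₀ hd.aemeasurable hlt]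
  rw [integrable_withDensity_iff_integrable_smul₀' hd.aemeasurable hlt] at hf
  have e1 : ∀ y : YY, (ENNReal.ofReal (kJ a A s y.1.re)).toReal • f y =
      (kJ a A s y.1.re : ℂ) * f y := by
    intro y
    rw [ENNReal.toReal_ofReal (hk0 _).le, Complex.real_smul]
  simp only [e1] at hf ⊢
  rw [← integral_indicator (measurableSet_YS a hS), Measure.volume_eq_prod, integral_prod]
  · rw [← integral_indicator hS]
    congr 1
    funext w
    by_cases hw : w ∈ S
    · rw [indicator_of_mem hw, ← integral_indicator (isOpen_Bs a w.re).measurableSet]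
      congr 1
      funext ζ
      rw [indicator_YS, indicator_of_mem hw]
    · rw [indicator_of_notMem hw]
      have : ∀ ζ : Fin 3 → ℝ, (YS a S).indicator
          (fun y : YY => (kJ a A s y.1.re : ℂ) * f y) (w, ζ) = 0 := by
        intro ζ
        rw [indicator_YS, indicator_of_notMem hw]
      simp only [this, integral_zero]
  · rw [← Measure.volume_eq_prod]
    exact (integrable_indicator_iff (measurableSet_YS a hS)).2 hf

lemma sqrtAtl_eq {a A : ℝ} {s : ℝ → ℝ} (hA : 0 < A) (x : ℝ) :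
    Real.sqrt (Atl a A s x) = kJ a A s x / (4 * Real.sqrt 5 * A ^ 2) := by
  have h5 : (0 : ℝ) < Real.sqrt 5 := Real.sqrt_pos.2 (by norm_num)
  unfold kJ
  field_simp

lemma strip_sub {a : ℝ} (ha : 0 < a) : strip a ⊆ strip (3 * a / 2) := by
  intro w hw
  have : |w.re| < a := hw
  show |w.re| < 3 * a / 2
  linarith

/-- Continuity of `XX`. -/
lemma continuousOn_XX {a A : ℝ} {s : ℝ → ℝ} {p : ℂ → ℝ} (ha : 0 < a) (hA : 0 < A)
    (hk : Continuous (kJ a A s)) (hp : ContinuousOn p (strip (3 * a / 2))) (J : Fin 3 → ℤ) :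
    ContinuousOn (fun y : YY => Jd J (XX a A s p y)) {y | y.1 ∈ strip a} := by
  have hpc : ContinuousOn (fun y : YY => p y.1) {y | y.1 ∈ strip a} :=
    hp.comp continuous_fst.continuousOn fun y hy => strip_sub ha hy
  have hsq : Continuous fun y : YY => Real.sqrt (Atl a A s y.1.re) := by
    simp only [sqrtAtl_eq hA]
    exact (hk.comp (Complex.continuous_re.comp continuous_fst)).div_const _
  have him : Continuous fun y : YY => y.1.im := Complex.continuous_im.comp continuous_fst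
  have c0 : Continuous fun y : YY => y.2 0 := by fun_prop
  have c1 : Continuous fun y : YY => y.2 1 := by fun_prop
  have c2 : Continuous fun y : YY => y.2 2 := by fun_prop
  have hX : ContinuousOn (fun y : YY => Real.exp (kap * y.1.im) *
      (A + Real.sqrt (Atl a A s y.1.re) * y.2 0) - p y.1) {y | y.1 ∈ strip a} :=
    ((Real.continuous_exp.comp (continuous_const.mul him)).mul
      (continuous_const.add (hsq.mul c0))).continuousOn.sub hpc
  have hY : Continuous fun y : YY => Real.exp (-(kap * y.1.im)) * (2 * A * y.2 1) :=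
    (Real.continuous_exp.comp (continuous_const.mul him).neg).mul (continuous_const.mul c1)
  show ContinuousOn (fun y : YY => (J 0 : ℝ) * (ph * (Real.exp (kap * y.1.im) *
      (A + Real.sqrt (Atl a A s y.1.re) * y.2 0) - p y.1) +
      ph' * (Real.exp (-(kap * y.1.im)) * (2 * A * y.2 1))) +
    (J 1 : ℝ) * ((Real.exp (kap * y.1.im) *
      (A + Real.sqrt (Atl a A s y.1.re) * y.2 0) - p y.1) +
      Real.exp (-(kap * y.1.im)) * (2 * A * y.2 1)) + (J 2 : ℝ) * (2 * A * y.2 2)) _
  exact ((continuousOn_const.mul ((continuousOn_const.mul hX).add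
    (continuousOn_const.mul hY.continuousOn))).add
    (continuousOn_const.mul (hX.add hY.continuousOn))).add
    (continuousOn_const.mul (continuous_const.mul c2).continuousOn)

/-- Continuity of the modes. -/
lemma continuousOn_md {a A δ₀ ρ₀ : ℝ} {s : ℝ → ℝ} {p : ℂ → ℝ} {B : BlockData}
    (hPB : S_PB) (hNI : S_NICE) (hD : Dat a A δ₀ ρ₀ s p B) {f : V4 → ℂ}
    (hf : ContDiffOn ℝ ∞ f (closure (Omt a A s p))) (hfG : GamInv (closure (Omt a A s p)) f)
    (J : Fin 3 → ℤ) :
    ContinuousOn (md a A s p f J)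
      {y : YY | y.2 0 ^ 2 + y.2 1 ^ 2 + y.2 2 ^ 2 ≤ a ^ 2 - y.1.re ^ 2} := by
  have hN := hPB a A δ₀ ρ₀ s p B hD f hf hfG
  have h3 := (hNI a _ hD.prof.a_pos hN).2.2.1 J
  have e : md a A s p f J = (fun q : (Fin 4 → ℝ) × ℝ =>
      tm J (sl (fun q => f (Xi a A s p q)) q.1 q.2)) ∘
      fun y : YY => (![y.2 0, y.2 1, y.2 2, y.1.re], y.1.im) := rfl
  rw [e]
  refine h3.comp (Continuous.continuousOn ?_) ?_
  · refine Continuous.prodMk ?_ (Complex.continuous_im.comp continuous_fst)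
    refine continuous_pi fun i => ?_
    fin_cases i
    · show Continuous fun y : YY => y.2 0
      fun_prop
    · show Continuous fun y : YY => y.2 1
      fun_prop
    · show Continuous fun y : YY => y.2 2
      fun_prop
    · exact Complex.continuous_re.comp continuous_fst
  · intro y hy
    show ∑ i, (![y.2 0, y.2 1, y.2 2, y.1.re] : Fin 4 → ℝ) i ^ 2 ≤ a ^ 2
    rw [Fin.sum_univ_four]
    show y.2 0 ^ 2 + y.2 1 ^ 2 + y.2 2 ^ 2 + y.1.re ^ 2 ≤ a ^ 2
    have : y.2 0 ^ 2 + y.2 1 ^ 2 + y.2 2 ^ 2 ≤ a ^ 2 - y.1.re ^ 2 := hy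
    linarith

lemma norm_sq_exp (z : ℂ) (x : ℝ) : ‖z * (Real.exp x : ℂ)‖ ^ 2 = ‖z‖ ^ 2 * Real.exp (2 * x) := by
  rw [norm_mul, mul_pow, Complex.norm_real, Real.norm_of_nonneg (Real.exp_pos _).le,
    ← Real.exp_nat_mul]
  norm_num

/-- PACKET COL. -/
theorem col : S_NRM → S_PHC → S_EQV → S_PB → S_NICE → S_COL := by
  intro hNRM hPHC _ hPB hNI a A δ₀ ρ₀ s p B hD f hf hfG J S hS hSs g η hg hη
  obtain ⟨hN1, -, ⟨hkc, hk0⟩, -⟩ := hNRM a A δ₀ ρ₀ s p B hD
  have ha := hD.prof.a_pos
  have hA := hD.prof.A_pos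
  have hpc : ContinuousOn p (strip (3 * a / 2)) := hD.pot.smooth.continuousOn
  have hX : ContinuousOn (fun y : YY => Jd J (XX a A s p y)) (YS a S) :=
    (continuousOn_XX ha hA hkc hpc J).mono fun y hy => hSs hy.1
  have hE : ContinuousOn (fun y : YY => (Real.exp (Jd J (XX a A s p y)) : ℂ)) (YS a S) :=
    Complex.continuous_ofReal.comp_continuousOn (Real.continuous_exp.comp_continuousOn hX)
  have hΦ : ContinuousOn (PhiJ a A s p J) (strip a) := (hPHC a A δ₀ ρ₀ s p B hD).1 J
  have hΦE : ContinuousOn (fun w => (Real.exp (-(PhiJ a A s p J w)) : ℂ)) S :=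
    Complex.continuous_ofReal.comp_continuousOn
      (Real.continuous_exp.comp_continuousOn ((hΦ.mono hSs).neg))
  have hYS := measurableSet_YS a hS
  have hac : muY a A s S ≪ volume.restrict (YS a S) := withDensity_absolutelyContinuous _ _
  -- the square integrals, part (a), for any continuous function
  have key : ∀ η : ℂ → ℂ, ContinuousOn η (strip a) →
      (AEStronglyMeasurable (fun y : YY => η y.1 * (Real.exp (Jd J (XX a A s p y)) : ℂ))
        (muY a A s S)) ∧
      ((Integrable (fun y : YY => ‖η y.1 * (Real.exp (Jd J (XX a A s p y)) : ℂ)‖ ^ 2)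
          (muY a A s S) ↔
        IntegrableOn (fun w => ‖(Real.exp (-(PhiJ a A s p J w)) : ℂ) * η w‖ ^ 2) S) ∧
      ∫ y : YY, ‖η y.1 * (Real.exp (Jd J (XX a A s p y)) : ℂ)‖ ^ 2 ∂(muY a A s S) =
        ∫ w in S, ‖(Real.exp (-(PhiJ a A s p J w)) : ℂ) * η w‖ ^ 2) := by
    intro η hη
    have hη' : ContinuousOn (fun y : YY => η y.1) (YS a S) :=
      hη.comp continuous_fst.continuousOn fun y hy => hSs hy.1
    have m0 : AEStronglyMeasurable (fun y : YY => η y.1 * (Real.exp (Jd J (XX a A s p y)) : ℂ))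
        (volume.restrict (YS a S)) := (hη'.mul hE).aestronglyMeasurable hYS
    have m1 : AEStronglyMeasurable
        (fun y : YY => ‖η y.1 * (Real.exp (Jd J (XX a A s p y)) : ℂ)‖ ^ 2)
        (volume.restrict (YS a S)) := ((hη'.mul hE).norm.pow 2).aestronglyMeasurable hYS
    have m2 : AEStronglyMeasurable
        (fun w => ‖(Real.exp (-(PhiJ a A s p J w)) : ℂ) * η w‖ ^ 2) (volume.restrict S) :=
      ((hΦE.mul (hη.mono hSs)).norm.pow 2).aestronglyMeasurable hS
    have hl : ∫⁻ y : YY, ENNReal.ofReal (‖η y.1 * (Real.exp (Jd J (XX a A s p y)) : ℂ)‖ ^ 2)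
        ∂(muY a A s S) =
        ∫⁻ w in S, ENNReal.ofReal (‖(Real.exp (-(PhiJ a A s p J w)) : ℂ) * η w‖ ^ 2) := by
      rw [lint_muY a A s hkc hS m1.aemeasurable.ennreal_ofReal]
      refine setLIntegral_congr_fun hS fun w hw => ?_
      obtain ⟨i1, i2⟩ := hN1 J w (hSs hw)
      have e1 : ∀ ζ : Fin 3 → ℝ, ENNReal.ofReal (kJ a A s w.re) * ENNReal.ofReal
          (‖η ((w, ζ) : YY).1 * (Real.exp (Jd J (XX a A s p (w, ζ))) : ℂ)‖ ^ 2) =
          ENNReal.ofReal (‖η w‖ ^ 2) * ENNReal.ofReal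
            (kJ a A s w.re * Real.exp (2 * Jd J (XX a A s p (w, ζ)))) := by
        intro ζ
        rw [norm_sq_exp, ← ENNReal.ofReal_mul (hk0 _).le, ← ENNReal.ofReal_mul (by positivity)]
        congr 1
        ring
      simp only [e1]
      rw [lintegral_const_mul' _ _ ENNReal.ofReal_ne_top,
        ← ofReal_integral_eq_lintegral_ofReal i1 (Eventually.of_forall fun ζ =>
          mul_nonneg (hk0 _).le (Real.exp_pos _).le), i2, ← ENNReal.ofReal_mul (by positivity)]
      congr 1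
      rw [mul_comm ((Real.exp (-(PhiJ a A s p J w)) : ℂ)) (η w), norm_sq_exp]
      congr 2
      ring
    refine ⟨m0.mono_ac hac, ?_, ?_⟩
    · constructor
      · intro h
        refine ⟨m2, ?_⟩
        rw [hasFiniteIntegral_iff_ofReal (Eventually.of_forall fun w => by positivity), ← hl]
        exact (hasFiniteIntegral_iff_ofReal (Eventually.of_forall fun w => by positivity)).1 h.2
      · intro h
        refine ⟨m1.mono_ac hac, ?_⟩
        rw [hasFiniteIntegral_iff_ofReal (Eventually.of_forall fun w => by positivity), hl]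
        exact (hasFiniteIntegral_iff_ofReal (Eventually.of_forall fun w => by positivity)).1 h.2
    · rw [integral_eq_lintegral_of_nonneg_ae (Eventually.of_forall fun w => by positivity)
        (m1.mono_ac hac), hl, ← integral_eq_lintegral_of_nonneg_ae
        (Eventually.of_forall fun w => by positivity) m2]
  refine ⟨(key η hη).2, ?_⟩
  intro ig iη imd
  -- membership in L²
  have L2 : ∀ η : ℂ → ℂ, ContinuousOn η (strip a) →
      IntegrableOn (fun w => ‖(Real.exp (-(PhiJ a A s p J w)) : ℂ) * η w‖ ^ 2) S →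
      MemLp (fun y : YY => η y.1 * (Real.exp (Jd J (XX a A s p y)) : ℂ)) 2 (muY a A s S) := by
    intro η hη h
    obtain ⟨k1, k2, -⟩ := key η hη
    exact (memLp_two_iff_integrable_sq_norm k1).2 (k2.2 h)
  have Lg := L2 g hg ig
  have Lη := L2 η hη iη
  have hmdc := continuousOn_md hPB hNI hD hf hfG J
  have hmd1 : ContinuousOn (md a A s p f J) (YS a S) := hmdc.mono fun y hy =>
    (show y.2 0 ^ 2 + y.2 1 ^ 2 + y.2 2 ^ 2 < a ^ 2 - y.1.re ^ 2 from hy.2).le
  have Lmd : MemLp (md a A s p f J) 2 (muY a A s S) :=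
    (memLp_two_iff_integrable_sq_norm ((hmd1.aestronglyMeasurable hYS).mono_ac hac)).2 imd
  have Lconj : MemLp (fun y : YY => (starRingEnd ℂ)
      (η y.1 * (Real.exp (Jd J (XX a A s p y)) : ℂ))) 2 (muY a A s S) := by
    refine Lη.of_le (Complex.continuous_conj.comp_aestronglyMeasurable Lη.1)
      (Eventually.of_forall fun y => ?_)
    rw [RCLike.norm_conj]
  have hint : Integrable (fun y : YY =>
      (md a A s p f J y - g y.1 * (Real.exp (Jd J (XX a A s p y)) : ℂ)) *
        (starRingEnd ℂ) (η y.1 * (Real.exp (Jd J (XX a A s p y)) : ℂ))) (muY a A s S) :=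
    (Lmd.sub Lg).integrable_mul Lconj
  rw [int_muY a A s hkc hk0 hS hint]
  refine setIntegral_congr_fun hS fun w hw => ?_
  simp only
  obtain ⟨i1, i2⟩ := hN1 J w (hSs hw)
  -- integrability of `kJ md e^{J X}` over the fibre
  have hcB : IsCompact {ζ : Fin 3 → ℝ | ζ 0 ^ 2 + ζ 1 ^ 2 + ζ 2 ^ 2 ≤ a ^ 2 - w.re ^ 2} := by
    refine Metric.isCompact_of_isClosed_isBounded (isClosed_le (by fun_prop) (by fun_prop)) ?_
    refine (Metric.isBounded_closedBall (x := (0 : Fin 3 → ℝ)) (r := a)).subset ?_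
    intro ζ hζ
    rw [mem_closedBall_zero_iff, pi_norm_le_iff_of_nonneg ha.le]
    have hζ' : ζ 0 ^ 2 + ζ 1 ^ 2 + ζ 2 ^ 2 ≤ a ^ 2 - w.re ^ 2 := hζ
    intro i
    rw [Real.norm_eq_abs]
    refine abs_le_of_sq_le_sq ?_ ha.le
    fin_cases i <;> simp <;> nlinarith [sq_nonneg (ζ 0), sq_nonneg (ζ 1), sq_nonneg (ζ 2),
      sq_nonneg w.re]
  have i3 : IntegrableOn (fun ζ => (kJ a A s w.re : ℂ) * (md a A s p f J (w, ζ) *
      (Real.exp (Jd J (XX a A s p (w, ζ))) : ℂ))) (Bs a w.re) := by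
    have hc : ContinuousOn (fun ζ : Fin 3 → ℝ => (kJ a A s w.re : ℂ) * (md a A s p f J (w, ζ) *
      (Real.exp (Jd J (XX a A s p (w, ζ))) : ℂ)))
        {ζ : Fin 3 → ℝ | ζ 0 ^ 2 + ζ 1 ^ 2 + ζ 2 ^ 2 ≤ a ^ 2 - w.re ^ 2} := by
      refine continuousOn_const.mul (ContinuousOn.mul ?_ ?_)
      · exact hmdc.comp (Continuous.prodMk_right w).continuousOn fun ζ hζ => hζ
      · refine Complex.continuous_ofReal.comp_continuousOn
          (Real.continuous_exp.comp_continuousOn ?_)
        exact (continuousOn_XX ha hA hkc hpc J).comp (Continuous.prodMk_right w).continuousOn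
          fun ζ _ => hSs hw
    exact (hc.integrableOn_compact hcB).mono_set fun ζ hζ =>
      (show ζ 0 ^ 2 + ζ 1 ^ 2 + ζ 2 ^ 2 < a ^ 2 - w.re ^ 2 from hζ).le
  have i4 : IntegrableOn (fun ζ => ((kJ a A s w.re *
      Real.exp (2 * Jd J (XX a A s p (w, ζ))) : ℝ) : ℂ)) (Bs a w.re) := i1.ofReal
  have e1 : ∀ ζ : Fin 3 → ℝ, (kJ a A s w.re : ℂ) *
      ((md a A s p f J (w, ζ) - g w * (Real.exp (Jd J (XX a A s p (w, ζ))) : ℂ)) *
        (starRingEnd ℂ) (η w * (Real.exp (Jd J (XX a A s p (w, ζ))) : ℂ))) =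
      (starRingEnd ℂ) (η w) * ((kJ a A s w.re : ℂ) * (md a A s p f J (w, ζ) *
        (Real.exp (Jd J (XX a A s p (w, ζ))) : ℂ)) -
        g w * ((kJ a A s w.re * Real.exp (2 * Jd J (XX a A s p (w, ζ))) : ℝ) : ℂ)) := by
    intro ζ
    rw [map_mul, Complex.conj_ofReal]
    have : Real.exp (2 * Jd J (XX a A s p (w, ζ))) =
        Real.exp (Jd J (XX a A s p (w, ζ))) * Real.exp (Jd J (XX a A s p (w, ζ))) := by
      rw [← Real.exp_add]
      congr 1
      ring
    rw [this]
    push_cast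
    ring
  have e5 : ∫ ζ in Bs a w.re, g w *
      ((kJ a A s w.re * Real.exp (2 * Jd J (XX a A s p (w, ζ))) : ℝ) : ℂ) =
      g w * (Real.exp (-(2 * PhiJ a A s p J w)) : ℂ) := by
    rw [integral_const_mul, integral_complex_ofReal, i2]
  simp only [e1]
  rw [integral_const_mul, integral_sub i3 (i4.const_mul _), e5]
  have e2 : FJ a A s p f J w = (Real.exp (PhiJ a A s p J w) : ℂ) *
      ∫ ζ in Bs a w.re, (kJ a A s w.re : ℂ) * (md a A s p f J (w, ζ) *
        (Real.exp (Jd J (XX a A s p (w, ζ))) : ℂ)) := by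
    unfold FJ
    rw [← integral_const_mul]
    congr 1
    funext ζ
    rw [Real.exp_add]
    push_cast
    ring
  have e3 : (Real.exp (-(PhiJ a A s p J w)) : ℂ) * FJ a A s p f J w =
      ∫ ζ in Bs a w.re, (kJ a A s w.re : ℂ) * (md a A s p f J (w, ζ) *
        (Real.exp (Jd J (XX a A s p (w, ζ))) : ℂ)) := by
    rw [e2, ← mul_assoc, ← Complex.ofReal_mul, ← Real.exp_add, neg_add_cancel, Real.exp_zero,
      Complex.ofReal_one, one_mul]
  rw [← e3, map_mul, Complex.conj_ofReal]
  have e4 : Real.exp (-(2 * PhiJ a A s p J w)) =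
      Real.exp (-(PhiJ a A s p J w)) * Real.exp (-(PhiJ a A s p J w)) := by
    rw [← Real.exp_add]
    congr 1
    ring
  rw [e4]
  push_cast
  ring

end Pool.Agent.Helper68.AB
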