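import Pool.Agent.Helper10.AB.GoalsF4

/-! # Project AB, module FM: packet GIN (invariance and modes of the extended function) -/

open MeasureTheory Set Filter Topology
open scoped ContDiff

noncomputable section

namespace Pool.Agent.Helper68.AB

open Pool.Agent.Helper24.AB Pool.Agent.Helper10.AB
open Pool.Agent.Helper15.AB (S_XI S_ATL XiI)

lemma mon_gE (J : Fin 3 → ℤ) (P : V4) : mon J (gE P) = mon (Jn J) P := by
  unfold mon
  congr 1
  show (J 0 : ℂ) * (2 * P 0 + P 1) + (J 1 : ℂ) * (P 0 + P 1) + (J 2 : ℂ) * P 2 =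
    ((2 * J 0 + J 1 : ℤ) : ℂ) * P 0 + ((J 0 + J 1 : ℤ) : ℂ) * P 1 + (J 2 : ℂ) * P 2
  push_cast
  ring

lemma mon_tE (J k : Fin 3 → ℤ) (P : V4) : mon J (tE k P) = mon J P := by
  unfold mon
  have : (J 0 : ℂ) * tE k P 0 + (J 1 : ℂ) * tE k P 1 + (J 2 : ℂ) * tE k P 2 =
      (J 0 : ℂ) * P 0 + (J 1 : ℂ) * P 1 + (J 2 : ℂ) * P 2 +
        ((J 0 * k 0 + J 1 * k 1 + J 2 * k 2 : ℤ) : ℂ) * (2 * Real.pi * Complex.I) := by
    show (J 0 : ℂ) * (P 0 + 2 * Real.pi * Complex.I * k 0) +
      (J 1 : ℂ) * (P 1 + 2 * Real.pi * Complex.I * k 1) +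
      (J 2 : ℂ) * (P 2 + 2 * Real.pi * Complex.I * k 2) = _
    push_cast
    ring
  rw [this, Complex.exp_add, Complex.exp_int_mul_two_pi_mul_I, mul_one]

lemma HH00 (g : (Fin 3 → ℤ) → ℂ → ℂ) (P : V4) :
    HH g (0, 0) P = ∑' J : Fin 3 → ℤ, g J (P 3) * mon J P := by
  unfold HH
  congr 1
  funext J
  simp [Jpw]

lemma continuous_gE : Continuous fun P : V4 => gE P := by
  show Continuous fun P : V4 => (![2 * P 0 + P 1, P 0 + P 1, P 2,
    P 3 + 2 * Real.pi * Complex.I] : V4)
  refine continuous_pi fun i => ?_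
  fin_cases i
  · show Continuous fun P : V4 => 2 * P 0 + P 1
    fun_prop
  · show Continuous fun P : V4 => P 0 + P 1
    fun_prop
  · show Continuous fun P : V4 => P 2
    fun_prop
  · show Continuous fun P : V4 => P 3 + 2 * Real.pi * Complex.I
    fun_prop

lemma continuous_tE (k : Fin 3 → ℤ) : Continuous fun P : V4 => tE k P := by
  refine continuous_pi fun i => ?_
  fin_cases i
  · show Continuous fun P : V4 => P 0 + 2 * Real.pi * Complex.I * k 0
    fun_prop
  · show Continuous fun P : V4 => P 1 + 2 * Real.pi * Complex.I * k 1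
    fun_prop
  · show Continuous fun P : V4 => P 2 + 2 * Real.pi * Complex.I * k 2
    fun_prop
  · show Continuous fun P : V4 => P 3
    fun_prop

/-- PACKET GIN. -/
theorem gin : S_HFD → S_EQV → S_MDG → S_WW → S_XI → S_GIN := by
  intro hHFD hEQV hMDG hWW _ a A δ₀ ρ₀ s p B hD g hg hequ G hG hGH
  obtain ⟨h1, h2, -⟩ := hHFD a A δ₀ ρ₀ s p B hD g hg
  obtain ⟨e1, e2, -, e4, e5, e6, -, e8, -⟩ := hEQV a A δ₀ ρ₀ s p B hD
  have hbij : Function.Bijective Jn := hWW.2.2.2.2.2.2.2
  have hPt3 : ∀ (y : YY) θ, Pt a A s p y θ 3 = y.1 := by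
    intro y θ
    rw [e8]
    rfl
  have hgE : ∀ P ∈ Omt a A s p, gE P ∈ Omt a A s p := by
    intro P hP
    obtain ⟨y, θ, hy, -, rfl⟩ := e6 P hP
    rw [e1, e5]
    refine ⟨?_, ?_⟩
    · show |(y.1 + 2 * Real.pi * Complex.I).re| < a
      have : (y.1 + 2 * Real.pi * Complex.I).re = y.1.re := by simp
      rw [this]
      exact hy.1
    · show y.2 ∈ Bs a (y.1 + 2 * Real.pi * Complex.I).re
      have : (y.1 + 2 * Real.pi * Complex.I).re = y.1.re := by simp
      rw [this]
      exact hy.2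
  have htE : ∀ P ∈ Omt a A s p, ∀ k, tE k P ∈ Omt a A s p := by
    intro P hP k
    obtain ⟨y, θ, hy, -, rfl⟩ := e6 P hP
    rw [e2, e5]
    exact hy
  have hP3 : ∀ P ∈ Omt a A s p, P 3 ∈ strip a := by
    intro P hP
    obtain ⟨y, θ, hy, h3, -⟩ := e6 P hP
    rw [← h3]
    exact hy.1
  have inv1 : EqOn (fun P => G (gE P)) G (Omt a A s p) := by
    intro P hP
    show G (gE P) = G P
    rw [hGH _ (hgE P hP), hGH _ hP, HH00, HH00]
    have : ∀ J : Fin 3 → ℤ, g J (gE P 3) * mon J (gE P) =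
        (fun J => g J (P 3) * mon J P) ((Equiv.ofBijective Jn hbij) J) := by
      intro J
      rw [mon_gE]
      show g J (P 3 + 2 * Real.pi * Complex.I) * mon (Jn J) P = g (Jn J) (P 3) * mon (Jn J) P
      rw [hequ J (P 3) (hP3 P hP)]
    simp only [this]
    exact (Equiv.ofBijective Jn hbij).tsum_eq (fun J => g J (P 3) * mon J P)
  have inv2 : ∀ k, EqOn (fun P => G (tE k P)) G (Omt a A s p) := by
    intro k P hP
    show G (tE k P) = G P
    rw [hGH _ (htE P hP k), hGH _ hP, HH00, HH00]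
    congr 1
    funext J
    rw [mon_tE]
    rfl
  have hmap1 : MapsTo (fun P => gE P) (closure (Omt a A s p)) (closure (Omt a A s p)) :=
    fun P hP => map_mem_closure continuous_gE hP hgE
  have hmap2 : ∀ k, MapsTo (fun P => tE k P) (closure (Omt a A s p)) (closure (Omt a A s p)) :=
    fun k P hP => map_mem_closure (continuous_tE k) hP fun Q hQ => htE Q hQ k
  refine ⟨?_, ?_, ?_⟩
  · intro P hP
    refine ⟨?_, fun k => ?_⟩
    · exact inv1.of_subset_closure (hG.continuousOn.comp continuous_gE.continuousOn hmap1)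
        hG.continuousOn subset_closure subset_rfl hP
    · exact (inv2 k).of_subset_closure
        (hG.continuousOn.comp (continuous_tE k).continuousOn (hmap2 k))
        hG.continuousOn subset_closure subset_rfl hP
  · intro P hP
    exact ((h2 (0, 0) P hP).differentiableAt.differentiableWithinAt).congr
      (fun Q hQ => hGH Q hQ) (hGH P hP)
  · intro J y hy
    set c : (Fin 3 → ℤ) → ℂ := fun J => g J y.1 * (Real.exp (Jd J (XX a A s p y)) : ℂ) with hc
    have hmem : ∀ θ, Pt a A s p y θ ∈ Omt a A s p := fun θ => (e5 y θ).2 hy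
    have hterm : ∀ (J : Fin 3 → ℤ) θ, g J (Pt a A s p y θ 3) * mon J (Pt a A s p y θ) =
        c J * Complex.exp (Complex.I * (Jd J θ : ℝ)) := by
      intro J θ
      rw [hPt3, e4, hc]
      ring
    have hs : Summable fun J => ‖c J‖ := by
      have := h1 (0, 0) _ (hmem 0)
      refine this.congr fun J => ?_
      have h0 : deriv^[((0, 0) : ℕ × (Fin 3 → ℕ)).1] (g J) (Pt a A s p y 0 3) *
          Jpw J ((0, 0) : ℕ × (Fin 3 → ℕ)).2 * mon J (Pt a A s p y 0) =
          g J (Pt a A s p y 0 3) * mon J (Pt a A s p y 0) := by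
        simp [Jpw]
      rw [h0, hterm, norm_mul, mul_comm Complex.I, Complex.norm_exp_ofReal_mul_I, mul_one]
    obtain ⟨-, m2⟩ := hMDG c hs
    have hfun : (fun θ => G (Pt a A s p y θ)) =
        fun θ => ∑' J : Fin 3 → ℤ, c J * Complex.exp (Complex.I * (Jd J θ : ℝ)) := by
      funext θ
      rw [hGH _ (hmem θ), HH00]
      congr 1
      funext J
      exact hterm J θ
    unfold md
    rw [hfun, m2 J]

end Pool.Agent.Helper68.AB
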