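import Pool.Agent.Helper10.AB.GoalsF5

/-! # Project AB, module FM: packet PVL -/

open MeasureTheory Set Filter Topology
open scoped ContDiff

noncomputable section

namespace Pool.Agent.Helper68.AB

open Pool.Agent.Helper24.AB Pool.Agent.Helper10.AB

/-- PACKET PVL. -/
theorem pvl : S_PVL := by
  intro x₁ x₂ F hF hper x x' h1 h2 h3 h4
  have hre : ∀ t ∈ uIcc x x', x₁ < t ∧ t < x₂ := by
    intro t ht
    rw [mem_uIcc] at ht
    rcases ht with ht | ht
    · exact ⟨lt_of_lt_of_le h1 ht.1, lt_of_le_of_lt ht.2 h4⟩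
    · exact ⟨lt_of_lt_of_le h3 ht.1, lt_of_le_of_lt ht.2 h2⟩
  have key := Complex.integral_boundary_rect_eq_zero_of_differentiableOn F (x : ℂ)
    ((x' : ℂ) + (2 * Real.pi : ℝ) * Complex.I) ?_
  · simp only [Complex.ofReal_re, Complex.ofReal_im, Complex.add_re, Complex.add_im,
      Complex.mul_re, Complex.mul_im, Complex.I_re, Complex.I_im, mul_zero, mul_one, zero_mul,
      sub_zero, add_zero, zero_add, Complex.ofReal_zero] at key
    have e : ∫ t in x..x', F (t + ((2 * Real.pi : ℝ) : ℂ) * Complex.I) = ∫ t in x..x', F t := by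
      refine intervalIntegral.integral_congr fun t ht => ?_
      obtain ⟨a1, a2⟩ := hre t ht
      have := hper (t : ℂ) (by simpa using a1) (by simpa using a2)
      show F ((t : ℂ) + ((2 * Real.pi : ℝ) : ℂ) * Complex.I) = F t
      rw [← this]
      congr 2
      push_cast
      ring
    rw [e, sub_self, zero_add, sub_eq_zero] at key
    exact (smul_right_injective ℂ Complex.I_ne_zero key).symm
  · refine hF.mono fun z hz => ?_
    obtain ⟨hz1, -⟩ := hz
    have : z.re ∈ uIcc x x' := by simpa using hz1
    exact hre _ this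

end Pool.Agent.Helper68.AB
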