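import Pool.Agent.Helper95.AB.GoalsX

/-! # Project AB, module FX: packet FCM (measurability of the Fourier coefficients) -/

open MeasureTheory Set Filter Topology
open scoped ContDiff

noncomputable section

namespace Pool.Agent.Helper68.AB

open Pool.Agent.Helper24.AB Pool.Agent.Helper10.AB Pool.Agent.Helper95.AB

/-- PACKET FCM. -/
theorem fcm : S_FCM := by
  intro a F ha hF n
  have hmp : MeasurePreserving Complex.measurableEquivRealProd.symm
      (volume : Measure (ℝ × ℝ)) (volume : Measure ℂ) :=
    Complex.volume_preserving_equiv_real_prod.symm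
  have hst : MeasurableSet (strip a) := by
    have : IsOpen (strip a) := isOpen_lt (Complex.continuous_re.abs) continuous_const
    exact this.measurableSet
  have hpre : Complex.measurableEquivRealProd.symm ⁻¹' strip a = Ioo (-a) a ×ˢ univ := by
    ext ⟨σ, t⟩
    simp only [mem_preimage, mem_prod, mem_univ, and_true, mem_Ioo, ← abs_lt]
    rfl
  have h1 : AEStronglyMeasurable (fun q : ℝ × ℝ => F ⟨q.1, q.2⟩)
      (volume.restrict (Ioo (-a) a ×ˢ univ)) := by
    have h2 := hmp.restrict_preimage hst
    rw [hpre] at h2
    exact hF.comp_measurePreserving h2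
  have h2 : AEStronglyMeasurable (fun q : ℝ × ℝ => F ⟨q.1, q.2⟩)
      ((volume.restrict (Ioo (-a) a)).prod (volume.restrict (Ioc 0 (2 * Real.pi)))) := by
    rw [Measure.prod_restrict, ← Measure.volume_eq_prod]
    exact h1.mono_set (prod_mono subset_rfl (subset_univ _))
  have h3 : AEStronglyMeasurable (fun q : ℝ × ℝ => F ⟨q.1, q.2⟩ *
      Complex.exp (-(Complex.I * n * q.2)))
      ((volume.restrict (Ioo (-a) a)).prod (volume.restrict (Ioc 0 (2 * Real.pi)))) := by
    refine h2.mul (Continuous.aestronglyMeasurable ?_)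
    fun_prop
  have h4 := h3.integral_prod_right'
  have e : fc F n = fun σ => ((2 * Real.pi)⁻¹ : ℝ) *
      ∫ t in Ioc 0 (2 * Real.pi), F ⟨σ, t⟩ * Complex.exp (-(Complex.I * n * t)) := by
    funext σ
    unfold fc fcu
    rw [intervalIntegral.integral_of_le (by positivity)]
  rw [e]
  exact h4.const_mul _

end Pool.Agent.Helper68.AB
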