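import Pool.Agent.Helper95.AB.GoalsW

/-! Project AB, packet STAIR: lower and upper bounds of the staircase. -/

open MeasureTheory Set Filter Topology

noncomputable section

namespace Pool.Agent.Helper68.AB

open Pool.Agent.Helper24.AB Pool.Agent.Helper95.AB

theorem lam_gt : 1 < lam := by
  unfold lam
  have : (0 : ℝ) ≤ Real.sqrt 5 := Real.sqrt_nonneg 5
  linarith

theorem log_lam_pos : 0 < Real.log lam := Real.log_pos lam_gt

theorem log_zp {α : ℝ} (hα : 0 < α) (k : ℤ) :
    Real.log (α * lam ^ k) = Real.log α + k * Real.log lam := by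
  have h1 : (0 : ℝ) < lam := zero_lt_one.trans lam_gt
  rw [Real.log_mul hα.ne' (zpow_pos h1 k).ne', Real.log_zpow]

theorem uF_log (J : Fin 3 → ℤ) (hJ : 0 < alp J) (t : ℝ) :
    Real.log (uF J t) = Real.log (alp J) + kap * t := by
  unfold uF uf
  rw [Real.log_mul hJ.ne' (Real.exp_pos _).ne', Real.log_exp]

theorem kap_eq : kap * (2 * Real.pi) = Real.log lam := by
  unfold kap
  field_simp

theorem kap_pos' : 0 < kap := by
  unfold kap
  exact div_pos log_lam_pos (by positivity)

theorem stair (h1 : S_CNTK) : S_STAIR := by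
  intro L B j hL hNR
  obtain ⟨C, hC0, hC⟩ := h1 (B.eps j) hNR
  have hΛ := log_lam_pos
  have hlam := lam_gt
  have hlam0 : (0 : ℝ) < lam := zero_lt_one.trans hlam
  obtain ⟨Λ, hΛd⟩ : ∃ Λ, Λ = Real.log lam := ⟨_, rfl⟩
  have hl2 : 0 < Real.log 2 := Real.log_pos one_lt_two
  have hLlog : 0 ≤ Real.log L := Real.log_nonneg hL
  have hL0 : 0 < L := lt_of_lt_of_le one_pos hL
  have hc1 : 0 ≤ Real.log (3 + lam * L) := Real.log_nonneg (by nlinarith)
  rw [← hΛd] at hΛ
  refine ⟨(2 / 100 + Real.log L / (100 * Λ) + C * Real.log (3 + lam * L)) / Real.log 2 +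
    (2 / (100 * Λ) + 2 * C), by positivity, fun J hJ => ?_⟩
  obtain ⟨α, hα⟩ : ∃ α, α = alp J.1 := ⟨_, rfl⟩
  obtain ⟨M, hM⟩ : ∃ M, M = MJ J.1 := ⟨_, rfl⟩
  rw [← hα] at hJ
  have hM2 : 2 ≤ M := by
    rw [hM]
    unfold MJ
    have := abs_nonneg (alp J.1 * alp' J.1)
    nlinarith [sq_nonneg ((J.1 2 : ℤ) : ℝ)]
  have hlM : Real.log 2 ≤ Real.log M := Real.log_le_log two_pos hM2
  have hM0 : 0 < M := by linarith
  have hzp : ∀ k : ℤ, 0 < α * lam ^ k := fun k => mul_pos hJ (zpow_pos hlam0 k)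
  have hlz : ∀ k : ℤ, Real.log (α * lam ^ k) = Real.log α + k * Λ := fun k => by
    rw [hΛd]
    exact log_zp hJ k
  refine ⟨⌈(Real.log L - Real.log α) / Λ⌉, fun k hk => ?_, fun k t ht1 ht2 => ?_⟩
  · rw [Int.ceil_le, div_le_iff₀ hΛ]
    have h2 := hk.size
    rw [← hα] at h2
    have h3 : L ≤ α * lam ^ k := by
      refine le_trans ?_ h2
      have : (1 : ℝ) ≤ 1 + (J.1 2 : ℝ) ^ 2 + (alp' J.1 * lam ^ (-k)) ^ 2 := by
        nlinarith [sq_nonneg ((J.1 2 : ℤ) : ℝ), sq_nonneg (alp' J.1 * lam ^ (-k))]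
      nlinarith
    have h4 := Real.log_le_log hL0 h3
    rw [hlz] at h4
    linarith
  -- the value of `log u`
  obtain ⟨k₀, hk₀⟩ : ∃ k₀, k₀ = ⌈(Real.log L - Real.log α) / Λ⌉ := ⟨_, rfl⟩
  rw [← hk₀]
  have hu : Real.log (uF J.1 t) = Real.log α + kap * t := by
    rw [hα]
    exact uF_log J.1 (by rw [← hα]; exact hJ) t
  have hkt1 : (k : ℝ) * Λ ≤ kap * t := by
    have h6 := mul_le_mul_of_nonneg_left ht1 kap_pos'.le
    have h5 := kap_eq
    rw [← hΛd] at h5
    rw [← mul_assoc kap, h5] at h6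
    linarith
  have hkt2 : kap * t ≤ ((k : ℝ) + 1) * Λ := by
    have h6 := mul_le_mul_of_nonneg_left ht2.le kap_pos'.le
    have h5 := kap_eq
    rw [← hΛd] at h5
    rw [← mul_assoc kap, h5] at h6
    linarith
  have hfin : ∀ a b : ℤ, (Ico a b).Finite := fun a b => Set.finite_Ico a b
  constructor
  · -- lower bound
    obtain ⟨k₁, hk₁⟩ : ∃ k₁, k₁ = ⌈(Real.log (L * M ^ 2) - Real.log α) / Λ⌉ := ⟨_, rfl⟩
    have hLM : 0 < L * M ^ 2 := by positivity
    have hlLM : Real.log (L * M ^ 2) = Real.log L + 2 * Real.log M := by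
      rw [Real.log_mul hL0.ne' (by positivity), Real.log_pow]
      norm_num
    have hk01 : k₀ ≤ k₁ := by
      rw [hk₀, hk₁]
      refine Int.ceil_mono ?_
      rw [hlLM]
      gcongr
      have : 0 ≤ Real.log M := hl2.le.trans hlM
      linarith
    have hk1a : Real.log (L * M ^ 2) ≤ Real.log α + k₁ * Λ := by
      have h6 := Int.le_ceil ((Real.log (L * M ^ 2) - Real.log α) / Λ)
      rw [← hk₁, div_le_iff₀ hΛ] at h6
      linarith
    have hk1b : Real.log α + k₁ * Λ ≤ Real.log (L * M ^ 2) + Λ := by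
      have h6 := Int.ceil_lt_add_one ((Real.log (L * M ^ 2) - Real.log α) / Λ)
      rw [← hk₁] at h6
      have h7 : (k₁ : ℝ) * Λ < ((Real.log (L * M ^ 2) - Real.log α) / Λ + 1) * Λ :=
        mul_lt_mul_of_pos_right h6 hΛ
      rw [add_mul, div_mul_cancel₀ _ hΛ.ne'] at h7
      linarith
    have hbig : ∀ k' : ℤ, k₁ ≤ k' → L * M ^ 2 ≤ α * lam ^ k' := by
      intro k' hk'
      rw [← Real.log_le_log_iff hLM (hzp k'), hlz]
      have : (k₁ : ℝ) ≤ k' := by exact_mod_cast hk'
      nlinarith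
    have hsm : ∀ k' : ℤ, k₁ ≤ k' → |alp' J.1 * lam ^ (-k')| ≤ 1 := by
      intro k' hk'
      have h8 := hbig k' hk'
      have h9 : |alp' J.1 * lam ^ (-k')| * (α * lam ^ k') = |α * alp' J.1| := by
        rw [← abs_of_pos (hzp k'), ← abs_mul]
        congr 1
        rw [zpow_neg]
        have := (zpow_pos hlam0 k').ne'
        field_simp
      have h10 : |α * alp' J.1| ≤ M := by
        rw [hM, hα]
        unfold MJ
        nlinarith [sq_nonneg ((J.1 2 : ℤ) : ℝ)]
      have h11 : M ≤ α * lam ^ k' := by nlinarith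
      by_contra hc
      push Not at hc
      nlinarith [hzp k']
    obtain ⟨K, hK⟩ : ∃ K : ℕ, K = (k - k₁).toNat := ⟨_, rfl⟩
    have hu2 : Real.log (uF J.1 t) ≤ Real.log L + 2 * Real.log M + (K + 2) * Λ := by
      rw [hu]
      have h12 : (k : ℝ) ≤ k₁ + K := by
        have : k ≤ k₁ + (K : ℤ) := by omega
        exact_mod_cast this
      rw [hlLM] at hk1b
      nlinarith
    have hCn := hC J k₁ K
    rw [← hα] at hCn
    have hcard : (((Finset.range K).filter fun k : ℕ =>
        1 / 10 ≤ dZ (α * lam ^ (k₁ + (k : ℤ)) * B.eps j)).card : ℝ) ≤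
        (({k | GS L B J.1 j k} ∩ Ico k₀ k).ncard : ℝ) := by
      rw [Nat.cast_le, ← Set.ncard_coe_finset]
      refine Set.ncard_le_ncard_of_injOn (fun i : ℕ => k₁ + (i : ℤ)) ?_ ?_
        ((hfin k₀ k).inter_of_right _)
      · intro i hi
        rw [Finset.mem_coe, Finset.mem_filter, Finset.mem_range] at hi
        refine ⟨⟨by rw [← hα]; exact hJ, by rw [← hα]; exact hi.2, ?_⟩, ?_, ?_⟩
        · have h13 := hbig (k₁ + (i : ℤ)) (by omega)
          have h14 := hsm (k₁ + (i : ℤ)) (by omega)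
          rw [← hα]
          refine le_trans ?_ h13
          have h15 : (alp' J.1 * lam ^ (-(k₁ + (i : ℤ)))) ^ 2 ≤ 1 := by
            rw [← sq_abs]
            exact pow_le_one₀ (abs_nonneg _) h14
          have h16 : 2 + (J.1 2 : ℝ) ^ 2 ≤ M := by
            rw [hM]
            unfold MJ
            linarith [abs_nonneg (alp J.1 * alp' J.1)]
          have h17 : 1 + (J.1 2 : ℝ) ^ 2 + (alp' J.1 * lam ^ (-(k₁ + (i : ℤ)))) ^ 2 ≤ M ^ 2 := by
            have h17' : M ≤ M ^ 2 := by
              rw [pow_two]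
              exact le_mul_of_one_le_left hM0.le (by linarith)
            linarith
          exact mul_le_mul_of_nonneg_left h17 hL0.le
        · change k₀ ≤ k₁ + (i : ℤ)
          omega
        · change k₁ + (i : ℤ) < k
          omega
      · intro i _ i' _ h
        have h' : k₁ + (i : ℤ) = k₁ + (i' : ℤ) := h
        omega
    refine le_trans ?_ (hCn.trans hcard)
    have hlog : Real.log (2 + |α * lam ^ k₁| + |alp' J.1 * lam ^ (-k₁)|) ≤
        Real.log (3 + lam * L) + 2 * Real.log M := by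
      have h18 : α * lam ^ k₁ ≤ lam * (L * M ^ 2) := by
        rw [← Real.log_le_log_iff (hzp k₁) (by positivity), hlz,
          Real.log_mul hlam0.ne' hLM.ne', ← hΛd]
        linarith
      have h19 : Real.log (3 + lam * L) + 2 * Real.log M = Real.log ((3 + lam * L) * M ^ 2) := by
        rw [Real.log_mul (by positivity) (by positivity), Real.log_pow]
        norm_num
      rw [h19]
      refine Real.log_le_log (by positivity) ?_
      rw [abs_of_pos (hzp k₁)]
      have h20 := hsm k₁ le_rfl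
      have h21 : (1 : ℝ) ≤ M ^ 2 := by nlinarith
      nlinarith
    rw [← hΛd, ← hM]
    have h22 : (100 * Λ)⁻¹ * Real.log (uF J.1 t) ≤
        (K : ℝ) / 100 + 2 / 100 + (Real.log L / (100 * Λ) + 2 / (100 * Λ) * Real.log M) := by
      have h23 := mul_le_mul_of_nonneg_left hu2 (by positivity : (0 : ℝ) ≤ (100 * Λ)⁻¹)
      refine h23.trans (le_of_eq ?_)
      field_simp
      ring
    have h24 := mul_le_mul_of_nonneg_left hlog hC0
    have h25 : 2 / 100 + Real.log L / (100 * Λ) + C * Real.log (3 + lam * L) ≤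
        (2 / 100 + Real.log L / (100 * Λ) + C * Real.log (3 + lam * L)) / Real.log 2 *
          Real.log M := by
      rw [div_mul_eq_mul_div, le_div_iff₀ hl2]
      exact mul_le_mul_of_nonneg_left hlM (by positivity)
    nlinarith
  · -- upper bound
    have hW : uF J.1 t ≤ WF J.1 t := by
      unfold WF WJ Wf
      have h26 := le_abs_self (uf (alp J.1) t)
      have h27 := abs_nonneg (vf (alp' J.1) t)
      have h28 := abs_nonneg ((J.1 2 : ℤ) : ℝ)
      change uf (alp J.1) t ≤ _
      linarith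
    have hu0 : 0 < uF J.1 t := by
      unfold uF uf
      rw [← hα]
      positivity
    have hW2 : 0 ≤ Real.log (WF J.1 t) := by
      refine Real.log_nonneg ?_
      unfold WF WJ Wf
      have h26 := abs_nonneg (uf (alp J.1) t)
      have h27 := abs_nonneg (vf (alp' J.1) t)
      have h28 := abs_nonneg ((J.1 2 : ℤ) : ℝ)
      linarith
    have hlu := Real.log_le_log hu0 hW
    have h29 : (({k | GS L B J.1 j k} ∩ Icc k₀ k).ncard : ℝ) ≤ ((k + 1 - k₀).toNat : ℝ) := by
      rw [Nat.cast_le]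
      refine (Set.ncard_le_ncard Set.inter_subset_right (Set.finite_Icc k₀ k)).trans (le_of_eq ?_)
      rw [← Finset.coe_Icc, Set.ncard_coe_finset, Int.card_Icc]
    refine h29.trans ?_
    rw [← hΛd]
    rcases le_or_gt (k + 1 - k₀) 0 with h30 | h30
    · rw [Int.toNat_of_nonpos h30]
      push_cast
      positivity
    · have h31 : ((k + 1 - k₀).toNat : ℝ) = (k : ℝ) + 1 - k₀ := by
        have : (((k + 1 - k₀).toNat : ℤ) : ℝ) = ((k + 1 - k₀ : ℤ) : ℝ) := by
          rw [Int.toNat_of_nonneg h30.le]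
        push_cast at this
        exact this
      rw [h31]
      have h32 := Int.le_ceil ((Real.log L - Real.log α) / Λ)
      rw [← hk₀, div_le_iff₀ hΛ] at h32
      have h33 : (k : ℝ) + 1 - k₀ - 2 ≤ Real.log (WF J.1 t) / Λ := by
        rw [le_div_iff₀ hΛ]
        rw [hu] at hlu
        nlinarith
      linarith

end Pool.Agent.Helper68.AB
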