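import Pool.Agent.Helper24.AB.PHI.Goals

/-! Project AB, packet LAM: all derivatives of `Λ(x) = log f(2√x)` are bounded. -/

open MeasureTheory Set Filter Topology
open scoped ContDiff

noncomputable section

namespace Pool.Agent.Helper68.AB

open Pool.Agent.Helper24.AB

/-! ### Power series with small coefficients -/

/-- coefficient sequences with `(n+1) a(n+1) ≤ 2 a(n)` -/
structure Cf (a : ℕ → ℝ) : Prop where
  nn : ∀ n : ℕ, 0 ≤ a n
  le : ∀ n : ℕ, ((n : ℝ) + 1) * a (n + 1) ≤ 2 * a n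

/-- the coefficients of the derivative -/
def Ds (a : ℕ → ℝ) : ℕ → ℝ := fun n => ((n : ℝ) + 1) * a (n + 1)

/-- the sum -/
def Ss (a : ℕ → ℝ) (x : ℝ) : ℝ := ∑' n, a n * x ^ n

variable {a : ℕ → ℝ}

theorem Cf.ds (h : Cf a) : Cf (Ds a) := by
  refine ⟨fun n => mul_nonneg (by positivity) (h.nn _), fun n => ?_⟩
  unfold Ds
  have h1 := h.le (n + 1)
  push_cast at h1 ⊢
  have h2 : (0 : ℝ) ≤ (n : ℝ) + 1 := by positivity
  nlinarith

theorem Cf.bound (h : Cf a) (n : ℕ) : a n ≤ a 0 * (2 ^ n / n.factorial) := by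
  induction n with
  | zero => simp
  | succ n ih =>
    have h1 := h.le n
    have h2 : (0 : ℝ) < (n : ℝ) + 1 := by positivity
    have h3 : a (n + 1) ≤ 2 * a n / ((n : ℝ) + 1) := by
      rw [le_div_iff₀ h2]
      linarith
    refine h3.trans ?_
    have h4 : a 0 * (2 ^ (n + 1) / ((n + 1).factorial : ℝ)) =
        2 * (a 0 * (2 ^ n / n.factorial)) / ((n : ℝ) + 1) := by
      rw [Nat.factorial_succ]
      push_cast
      field_simp
      ring
    rw [h4]
    gcongr

theorem Cf.summable (h : Cf a) (x : ℝ) : Summable fun n => a n * x ^ n := by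
  have h1 : Summable fun n : ℕ => a 0 * ((2 * |x|) ^ n / n.factorial) :=
    (Real.summable_pow_div_factorial (2 * |x|)).mul_left _
  refine Summable.of_norm_bounded h1 fun n => ?_
  rw [Real.norm_eq_abs, abs_mul, abs_pow, abs_of_nonneg (h.nn n)]
  have h2 := mul_le_mul_of_nonneg_right (h.bound n) (pow_nonneg (abs_nonneg x) n)
  refine h2.trans (le_of_eq ?_)
  rw [mul_pow]
  ring

theorem Cf.hasDerivAt (h : Cf a) (x : ℝ) : HasDerivAt (Ss a) (Ss (Ds a) x) x := by
  obtain ⟨r, hr⟩ : ∃ r, r = |x| + 1 := ⟨_, rfl⟩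
  have hr0 : 0 < r := by rw [hr]; positivity
  have hx : x ∈ Metric.ball (0 : ℝ) r := by
    rw [mem_ball_zero_iff, Real.norm_eq_abs, hr]
    linarith
  have hu : Summable fun n : ℕ => a n * (n * r ^ (n - 1)) := by
    rw [← summable_nat_add_iff 1]
    refine (h.ds.summable r).congr fun n => ?_
    unfold Ds
    rw [Nat.add_sub_cancel]
    push_cast
    ring
  have h1 := hasDerivAt_tsum_of_isPreconnected (g := fun n y => a n * y ^ n)
    (g' := fun n y => a n * (n * y ^ (n - 1))) (y₀ := 0) (y := x) hu Metric.isOpen_ball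
    (convex_ball (0 : ℝ) r).isPreconnected
    (fun n y _ => (hasDerivAt_pow n y).const_mul (a n)) (fun n y hy => ?_)
    (Metric.mem_ball_self hr0) (h.summable 0) hx
  · have h2 : ∑' n, a n * ((n : ℝ) * x ^ (n - 1)) = Ss (Ds a) x := by
      have hs : Summable fun n : ℕ => a n * ((n : ℝ) * x ^ (n - 1)) := by
        rw [← summable_nat_add_iff 1]
        refine (h.ds.summable x).congr fun n => ?_
        unfold Ds
        rw [Nat.add_sub_cancel]
        push_cast
        ring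
      rw [hs.tsum_eq_zero_add]
      unfold Ss Ds
      simp only [Nat.cast_zero, zero_mul, mul_zero, zero_add, Nat.add_sub_cancel]
      refine tsum_congr fun n => ?_
      push_cast
      ring
    rw [h2] at h1
    exact h1
  · rw [mem_ball_zero_iff, Real.norm_eq_abs] at hy
    rw [Real.norm_eq_abs, abs_mul, abs_mul, abs_pow, abs_of_nonneg (h.nn n), Nat.abs_cast]
    have h3 := h.nn n
    gcongr

theorem Cf.ss_nonneg (h : Cf a) {x : ℝ} (hx : 0 ≤ x) : 0 ≤ Ss a x :=
  tsum_nonneg fun n => mul_nonneg (h.nn n) (pow_nonneg hx n)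

theorem Cf.ss_ds (h : Cf a) {x : ℝ} (hx : 0 ≤ x) : Ss (Ds a) x ≤ 2 * Ss a x := by
  unfold Ss
  rw [← tsum_mul_left]
  refine (h.ds.summable x).tsum_le_tsum (fun n => ?_) ((h.summable x).mul_left 2)
  rw [← mul_assoc]
  exact mul_le_mul_of_nonneg_right (h.le n) (pow_nonneg hx n)

theorem Cf.ss_pos (h : Cf a) (h0 : 0 < a 0) {x : ℝ} (hx : 0 ≤ x) : 0 < Ss a x := by
  refine h0.trans_le ?_
  have h1 := (h.summable x).le_tsum 0 fun n _ => mul_nonneg (h.nn n) (pow_nonneg hx n)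
  rw [pow_zero, mul_one] at h1
  exact h1

theorem Cf.iter (h : Cf a) (k : ℕ) : Cf (Ds^[k] a) := by
  induction k with
  | zero => exact h
  | succ k ih =>
    rw [Function.iterate_succ_apply']
    exact ih.ds

theorem Cf.iter_le (h : Cf a) {x : ℝ} (hx : 0 ≤ x) (k : ℕ) :
    Ss (Ds^[k] a) x ≤ 2 ^ k * Ss a x := by
  induction k with
  | zero => simp
  | succ k ih =>
    rw [Function.iterate_succ_apply', pow_succ]
    have h1 := (h.iter k).ss_ds hx
    linarith

theorem Cf.hasDerivAt_iter (h : Cf a) (k : ℕ) (x : ℝ) :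
    HasDerivAt (Ss (Ds^[k] a)) (Ss (Ds^[k + 1] a) x) x := by
  rw [Function.iterate_succ_apply']
  exact (h.iter k).hasDerivAt x

theorem Cf.iteratedDeriv (h : Cf a) (k : ℕ) : iteratedDeriv k (Ss a) = Ss (Ds^[k] a) := by
  induction k with
  | zero => simp
  | succ k ih =>
    rw [iteratedDeriv_succ, ih]
    funext x
    exact (h.hasDerivAt_iter k x).deriv

theorem Cf.contDiff (h : Cf a) : ContDiff ℝ ∞ (Ss a) := by
  refine contDiff_of_differentiable_iteratedDeriv fun k _ => ?_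
  rw [h.iteratedDeriv k]
  exact fun x => (h.hasDerivAt_iter k x).differentiableAt

/-! ### The logarithm -/

/-- the ratios -/
def Rt (a : ℕ → ℝ) (j : ℕ) (x : ℝ) : ℝ := Ss (Ds^[j] a) x / Ss a x

/-- the algebra of the ratios -/
def RA (a : ℕ → ℝ) : Subalgebra ℝ (ℝ → ℝ) := Algebra.adjoin ℝ (range (Rt a))

theorem ra_spec (h : Cf a) (h0 : 0 < a 0) (g : ℝ → ℝ) (hg : g ∈ RA a) :
    (∃ C : ℝ, ∀ x, 0 < x → |g x| ≤ C) ∧ ∃ g' ∈ RA a, ∀ x, 0 < x → HasDerivAt g (g' x) x := by
  induction hg using Algebra.adjoin_induction with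
  | mem f hf =>
    obtain ⟨j, rfl⟩ := hf
    refine ⟨⟨2 ^ j, fun x hx => ?_⟩, Rt a (j + 1) - Rt a j * Rt a 1, ?_, fun x hx => ?_⟩
    · have h1 := h.ss_pos h0 hx.le
      have h2 := (h.iter j).ss_nonneg hx.le
      unfold Rt
      rw [abs_of_nonneg (by positivity), div_le_iff₀ h1]
      exact h.iter_le hx.le j
    · exact Subalgebra.sub_mem _ (Algebra.subset_adjoin ⟨j + 1, rfl⟩)
        (Subalgebra.mul_mem _ (Algebra.subset_adjoin ⟨j, rfl⟩) (Algebra.subset_adjoin ⟨1, rfl⟩))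
    · have h1 := h.ss_pos h0 hx.le
      have h2 := (h.hasDerivAt_iter j x).div (h.hasDerivAt_iter 0 x) h1.ne'
      refine h2.congr_deriv ?_
      simp only [Pi.sub_apply, Pi.mul_apply, Rt, Function.iterate_zero_apply, zero_add]
      field_simp
  | algebraMap r =>
    refine ⟨⟨|r|, fun x _ => le_rfl⟩, 0, Subalgebra.zero_mem _, fun x _ => ?_⟩
    exact hasDerivAt_const x r
  | add f g _ _ hf hg =>
    obtain ⟨⟨C, hC⟩, f', hf', hfd⟩ := hf
    obtain ⟨⟨D, hD⟩, g', hg', hgd⟩ := hg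
    refine ⟨⟨C + D, fun x hx => (abs_add_le _ _).trans (add_le_add (hC x hx) (hD x hx))⟩,
      f' + g', Subalgebra.add_mem _ hf' hg', fun x hx => (hfd x hx).add (hgd x hx)⟩
  | mul f g hf0 hg0 hf hg =>
    obtain ⟨⟨C, hC⟩, f', hf', hfd⟩ := hf
    obtain ⟨⟨D, hD⟩, g', hg', hgd⟩ := hg
    refine ⟨⟨C * D, fun x hx => ?_⟩, f' * g + f * g', Subalgebra.add_mem _
      (Subalgebra.mul_mem _ hf' hg0) (Subalgebra.mul_mem _ hf0 hg'),
      fun x hx => (hfd x hx).mul (hgd x hx)⟩
    rw [Pi.mul_apply, abs_mul]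
    exact mul_le_mul (hC x hx) (hD x hx) (abs_nonneg _) ((abs_nonneg _).trans (hC x hx))

theorem log_spec (h : Cf a) (h0 : 0 < a 0) {F : ℝ → ℝ}
    (hF : ∀ x, 0 < x → F x = Real.log (Ss a x)) : ContDiffOn ℝ ∞ F (Ioi 0) ∧
      ∀ k : ℕ, 1 ≤ k → ∃ C : ℝ, ∀ x : ℝ, 0 < x → |iteratedDeriv k F x| ≤ C := by
  constructor
  · refine (h.contDiff.contDiffOn.log fun x hx => (h.ss_pos h0 (le_of_lt hx)).ne').congr
      fun x hx => hF x hx
  · have key : ∀ k : ℕ, ∃ g ∈ RA a, ∀ x, 0 < x → iteratedDeriv (k + 1) F x = g x := by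
      intro k
      induction k with
      | zero =>
        refine ⟨Rt a 1, Algebra.subset_adjoin ⟨1, rfl⟩, fun x hx => ?_⟩
        rw [zero_add, iteratedDeriv_one]
        have h1 := (h.hasDerivAt_iter 0 x).log (h.ss_pos h0 hx.le).ne'
        have h2 : F =ᶠ[𝓝 x] fun y => Real.log (Ss a y) := by
          filter_upwards [Ioi_mem_nhds hx] with y hy
          exact hF y hy
        rw [h2.deriv_eq]
        exact h1.deriv
      | succ k ih =>
        obtain ⟨g, hg, hgk⟩ := ih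
        obtain ⟨-, g', hg', hd⟩ := ra_spec h h0 g hg
        refine ⟨g', hg', fun x hx => ?_⟩
        rw [iteratedDeriv_succ]
        have h2 : iteratedDeriv (k + 1) F =ᶠ[𝓝 x] g := by
          filter_upwards [Ioi_mem_nhds hx] with y hy
          exact hgk y hy
        rw [h2.deriv_eq]
        exact (hd x hx).deriv
    intro k hk
    obtain ⟨g, hg, hgk⟩ := key (k - 1)
    rw [Nat.sub_add_cancel hk] at hgk
    obtain ⟨⟨C, hC⟩, -⟩ := ra_spec h h0 g hg
    exact ⟨C, fun x hx => by rw [hgk x hx]; exact hC x hx⟩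

/-! ### The coefficients of `f(2√x)` -/

/-- the coefficients -/
def cof (n : ℕ) : ℝ := ∫ τ in (-1 : ℝ)..1, (1 - τ ^ 2) * ((2 * τ) ^ (2 * n) / (2 * n).factorial)

theorem cof_cont (n : ℕ) :
    Continuous fun τ : ℝ => (1 - τ ^ 2) * ((2 * τ) ^ (2 * n) / (2 * n).factorial) := by
  fun_prop

theorem cof_cf : Cf cof := by
  refine ⟨fun n => ?_, fun n => ?_⟩
  · refine intervalIntegral.integral_nonneg (by norm_num) fun τ hτ => ?_
    have h1 : τ ^ 2 ≤ 1 := by
      have := hτ.1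
      have := hτ.2
      nlinarith
    have h2 : 0 ≤ (2 * τ) ^ (2 * n) := by
      rw [pow_mul]
      positivity
    exact mul_nonneg (by linarith) (by positivity)
  · unfold cof
    rw [← intervalIntegral.integral_const_mul, ← intervalIntegral.integral_const_mul]
    refine intervalIntegral.integral_mono_on (by norm_num)
      ((continuous_const.mul (cof_cont (n + 1))).intervalIntegrable _ _)
      ((continuous_const.mul (cof_cont n)).intervalIntegrable _ _) fun τ hτ => ?_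
    have h1 : τ ^ 2 ≤ 1 := by
      have := hτ.1
      have := hτ.2
      nlinarith
    have h2 : 0 ≤ (2 * τ) ^ (2 * n) := by
      rw [pow_mul]
      positivity
    have h3 : ((n : ℝ) + 1) * ((1 - τ ^ 2) * ((2 * τ) ^ (2 * (n + 1)) /
        ((2 * (n + 1)).factorial : ℝ))) = (1 - τ ^ 2) * ((2 * τ) ^ (2 * n) /
          (2 * n).factorial) * (2 * τ ^ 2 / (2 * n + 1)) := by
      have e : 2 * (n + 1) = 2 * n + 1 + 1 := by ring
      rw [e, Nat.factorial_succ, Nat.factorial_succ, pow_succ, pow_succ]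
      push_cast
      have e2 : (2 * (n : ℝ) + 1 + 1) = 2 * ((n : ℝ) + 1) := by ring
      rw [e2]
      have e3 : ((n : ℝ) + 1) ≠ 0 := by positivity
      have e4 : (2 * (n : ℝ) + 1) ≠ 0 := by positivity
      have e5 : ((2 * n).factorial : ℝ) ≠ 0 := by positivity
      field_simp
      ring
    rw [h3]
    have h4 : 0 ≤ (1 - τ ^ 2) * ((2 * τ) ^ (2 * n) / (2 * n).factorial) :=
      mul_nonneg (by linarith) (by positivity)
    have h5 : 2 * τ ^ 2 / (2 * (n : ℝ) + 1) ≤ 2 := by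
      rw [div_le_iff₀ (by positivity)]
      have : (0 : ℝ) ≤ n := n.cast_nonneg
      nlinarith
    nlinarith

theorem cof_zero : 0 < cof 0 := by
  have h : cof 0 = ∫ τ in (-1 : ℝ)..1, (1 - τ ^ 2) := by
    unfold cof
    simp
  rw [h, intervalIntegral.integral_sub (by simp) (by
    exact (continuous_pow 2).intervalIntegrable _ _)]
  rw [integral_pow]
  norm_num

theorem fy_cosh (y : ℝ) : fy y = ∫ τ in (-1 : ℝ)..1, (1 - τ ^ 2) * Real.cosh (y * τ) := by
  have hc : ∀ z : ℝ, Continuous fun τ : ℝ => (1 - τ ^ 2) * Real.exp (z * τ) := fun z => by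
    fun_prop
  have h1 : fy (-y) = fy y := by
    unfold fy
    have h2 := intervalIntegral.integral_comp_neg (a := -1) (b := 1)
      (fun τ => (1 - τ ^ 2) * Real.exp (y * τ))
    rw [neg_neg] at h2
    rw [← h2]
    refine intervalIntegral.integral_congr fun τ _ => ?_
    change (1 - τ ^ 2) * Real.exp (-y * τ) = (1 - (-τ) ^ 2) * Real.exp (y * -τ)
    rw [neg_sq, neg_mul, mul_neg]
  have h3 : ∫ τ in (-1 : ℝ)..1, (1 - τ ^ 2) * Real.cosh (y * τ) = (fy y + fy (-y)) / 2 := by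
    unfold fy
    rw [← intervalIntegral.integral_add ((hc y).intervalIntegrable _ _)
      ((hc (-y)).intervalIntegrable _ _), ← intervalIntegral.integral_div]
    refine intervalIntegral.integral_congr fun τ _ => ?_
    change (1 - τ ^ 2) * Real.cosh (y * τ) =
      ((1 - τ ^ 2) * Real.exp (y * τ) + (1 - τ ^ 2) * Real.exp (-y * τ)) / 2
    rw [Real.cosh_eq, neg_mul]
    ring
  rw [h3, h1]
  ring

theorem fy_eq {x : ℝ} (hx : 0 < x) : fy (2 * Real.sqrt x) = Ss cof x := by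
  rw [fy_cosh]
  let F : ℕ → ℝ → ℝ := fun n τ => (1 - τ ^ 2) * ((2 * τ) ^ (2 * n) / (2 * n).factorial) * x ^ n
  have hFc : ∀ n, Continuous (F n) := fun n => (cof_cont n).mul continuous_const
  have hsx : Real.sqrt x ^ 2 = x := Real.sq_sqrt hx.le
  have hF : ∀ τ, HasSum (fun n => F n τ) ((1 - τ ^ 2) * Real.cosh (2 * Real.sqrt x * τ)) := by
    intro τ
    have h1 := (Real.hasSum_cosh (2 * Real.sqrt x * τ)).mul_left (1 - τ ^ 2)
    have h3 : (fun n => F n τ) = fun n => (1 - τ ^ 2) * ((2 * Real.sqrt x * τ) ^ (2 * n) /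
        ((2 * n).factorial : ℝ)) := by
      funext n
      change (1 - τ ^ 2) * ((2 * τ) ^ (2 * n) / (2 * n).factorial) * x ^ n = _
      have h4 : (2 * Real.sqrt x * τ) ^ (2 * n) = (2 * τ) ^ (2 * n) * x ^ n := by
        rw [show 2 * Real.sqrt x * τ = 2 * τ * Real.sqrt x by ring, mul_pow, pow_mul (Real.sqrt x),
          hsx]
      rw [h4]
      ring
    rw [h3]
    exact h1
  have h2 : HasSum (fun n => ∫ τ in (-1 : ℝ)..1, F n τ)
      (∫ τ in (-1 : ℝ)..1, (1 - τ ^ 2) * Real.cosh (2 * Real.sqrt x * τ)) := by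
    refine intervalIntegral.hasSum_integral_of_dominated_convergence
      (fun n _ => (2 * Real.sqrt x) ^ (2 * n) / (2 * n).factorial)
      (fun n => (hFc n).aestronglyMeasurable) (fun n => ?_) ?_ ?_ ?_
    · refine ae_of_all _ fun τ hτ => ?_
      rw [uIoc_of_le (by norm_num)] at hτ
      have h5 : |τ| ≤ 1 := abs_le.2 ⟨hτ.1.le, hτ.2⟩
      have h6 : |1 - τ ^ 2| ≤ 1 := by
        rw [← sq_abs τ, abs_of_nonneg (by nlinarith [abs_nonneg τ])]
        nlinarith [abs_nonneg τ]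
      change ‖(1 - τ ^ 2) * ((2 * τ) ^ (2 * n) / (2 * n).factorial) * x ^ n‖ ≤ _
      rw [Real.norm_eq_abs, abs_mul, abs_mul, abs_div, abs_pow, abs_mul, abs_two, Nat.abs_cast,
        abs_of_nonneg (pow_nonneg hx.le n)]
      have h7 : (2 * Real.sqrt x) ^ (2 * n) = 2 ^ (2 * n) * x ^ n := by
        rw [mul_pow, pow_mul (Real.sqrt x), hsx]
      rw [h7]
      have h8 : (2 * |τ|) ^ (2 * n) ≤ 2 ^ (2 * n) :=
        pow_le_pow_left₀ (by positivity) (by linarith) _
      have h9 : 0 ≤ x ^ n := pow_nonneg hx.le n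
      calc |1 - τ ^ 2| * ((2 * |τ|) ^ (2 * n) / ((2 * n).factorial : ℝ)) * x ^ n
          ≤ 1 * (2 ^ (2 * n) / ((2 * n).factorial : ℝ)) * x ^ n := by gcongr
        _ = 2 ^ (2 * n) * x ^ n / ((2 * n).factorial : ℝ) := by ring
    · exact ae_of_all _ fun τ _ => (Real.hasSum_cosh (2 * Real.sqrt x)).summable
    · exact continuous_const.intervalIntegrable _ _
    · exact ae_of_all _ fun τ _ => hF τ
  rw [← h2.tsum_eq]
  unfold Ss cof
  refine tsum_congr fun n => ?_
  rw [← intervalIntegral.integral_mul_const]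

/-- (LAM) -/
theorem lam : S_LAM := log_spec cof_cf cof_zero fun x hx => by
  unfold Lam
  rw [fy_eq hx]

end Pool.Agent.Helper68.AB
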